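import Pool.Agent.Results.MP_f639ae_co.Superpoly

set_option autoImplicit false

namespace Pool.Agent.Results.MP_f639ae_co.Lower

open Pool.Agent.H29.KDim Pool.Agent.Results.MP_f639ae_co.Superpoly

theorem result : ∀ k : ℕ, 2 ≤ k → ∀ m : ℕ, ((2 ^ (m * m) : ℕ) : ℕ∞) ≤
      numIrr k (6 * m + 1) * ((12 * m * (k - 1) + 2) ^ (2 * m) : ℕ) :=
  fun k hk => (all_parts k hk).1

end Pool.Agent.Results.MP_f639ae_co.Lower
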