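import Mathlib
import Pool.Agent.H29.KCountDefs
import Pool.Agent.H29.KCount

set_option autoImplicit false

namespace Pool.Agent.Results.MP_f639ae_co.Superpoly

open Pool.Agent.H29.KDim

theorem all_parts : ∀ k : ℕ, 2 ≤ k →
    (∀ m : ℕ, ((2 ^ (m * m) : ℕ) : ℕ∞) ≤
      numIrr k (6 * m + 1) * ((12 * m * (k - 1) + 2) ^ (2 * m) : ℕ)) ∧
    ∀ c C t₀ : ℕ, ∃ t, t₀ ≤ t ∧ ((C * t ^ c : ℕ) : ℕ∞) < numIrr k t := by
  intro k hk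
  obtain ⟨K, rfl⟩ : ∃ K, k = K + 2 := ⟨k - 2, by omega⟩
  exact ⟨count K, superpoly K⟩

theorem result :
    ∀ k : ℕ, 2 ≤ k → ∀ c C t₀ : ℕ, ∃ t, t₀ ≤ t ∧ ((C * t ^ c : ℕ) : ℕ∞) < numIrr k t :=
  fun k hk => (all_parts k hk).2

end Pool.Agent.Results.MP_f639ae_co.Superpoly
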